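import Pool.Agent.BEB.Stmts

/-!
# Squad BEB, row ODP (helper19): stability of the odd polynomials
-/

set_option autoImplicit false

namespace Pool.Agent.BEB.H19

open Pool.Agent.BEB MvPolynomial

/-- the odd polynomials as a submodule -/
def OddS : Submodule ℝ Pl where
  carrier := {P | OddP P}
  add_mem' := by
    intro P Q hP hQ m hm
    rw [mem_support_iff, coeff_add] at hm
    by_cases h : coeff m P = 0
    · have h2 : coeff m Q ≠ 0 := by
        intro h3
        apply hm
        rw [h, h3, add_zero]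
      exact hQ m (mem_support_iff.2 h2)
    · exact hP m (mem_support_iff.2 h)
  zero_mem' := by
    intro m hm
    simp at hm
  smul_mem' := by
    intro c P hP m hm
    rw [mem_support_iff, coeff_smul] at hm
    refine hP m (mem_support_iff.2 fun h => hm ?_)
    rw [h, smul_zero]

theorem mem_OddS {P : Pl} : P ∈ OddS ↔ OddP P := Iff.rfl

theorem mono_mem {m : Fin 3 →₀ ℕ} (c : ℝ) (h : Odd (m 2)) : monomial m c ∈ OddS := by
  intro k hk
  rw [mem_support_iff, coeff_monomial] at hk
  have h1 : m = k := by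
    by_contra hne
    exact hk (if_neg hne)
  rw [← h1]
  exact h

theorem odd_map (T : Pl →ₗ[ℝ] Pl) (hT : ∀ (m : Fin 3 →₀ ℕ) (c : ℝ), Odd (m 2) →
    T (monomial m c) ∈ OddS) {P : Pl} (hP : OddP P) : T P ∈ OddS := by
  rw [P.as_sum, map_sum]
  exact Submodule.sum_mem _ fun m hm => hT m _ (hP m hm)

theorem rho_mono (m : Fin 3 →₀ ℕ) (c : ℝ) (h : Odd (m 2)) : rho * monomial m c ∈ OddS := by
  unfold rho
  rw [Finset.sum_mul]
  refine Submodule.sum_mem _ fun i _ => ?_
  rw [X_pow_eq_monomial, monomial_mul, one_mul]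
  apply mono_mem
  rw [Finsupp.add_apply, Finsupp.single_apply]
  by_cases hi : i = 2
  · rw [if_pos hi]
    obtain ⟨k, hk⟩ := h
    exact ⟨k + 1, by omega⟩
  · rw [if_neg hi, zero_add]
    exact h

theorem lap_mono (m : Fin 3 →₀ ℕ) (c : ℝ) (h : Odd (m 2)) : lap (monomial m c) ∈ OddS := by
  unfold lap
  refine Submodule.sum_mem _ fun i _ => ?_
  rw [pderiv_monomial, pderiv_monomial]
  by_cases hi : i = 2
  · subst hi
    by_cases h1 : m 2 = 1
    · have h2 : (((m - Finsupp.single 2 1 : Fin 3 →₀ ℕ) 2 : ℕ) : ℝ) = 0 := by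
        rw [Finsupp.tsub_apply, Finsupp.single_eq_same, h1]
        simp
      rw [h2, mul_zero, monomial_zero]
      exact Submodule.zero_mem _
    · apply mono_mem
      rw [Finsupp.tsub_apply, Finsupp.tsub_apply, Finsupp.single_eq_same]
      obtain ⟨k, hk⟩ := h
      exact ⟨k - 1, by omega⟩
  · apply mono_mem
    rw [Finsupp.tsub_apply, Finsupp.tsub_apply, Finsupp.single_apply, if_neg hi]
    simpa using h

/-- the Laplacian as a linear map -/
noncomputable def lapL : Pl →ₗ[ℝ] Pl where
  toFun := lap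
  map_add' := by
    intro P Q
    unfold lap
    simp [Finset.sum_add_distrib]
  map_smul' := by
    intro c P
    unfold lap
    simp [Finset.smul_sum]

theorem X2_mul_odd (Q : Pl) (hQ : ∀ m ∈ Q.support, Even (m 2)) : OddP (X 2 * Q) := by
  intro m hm
  rw [mem_support_iff, mul_comm, coeff_mul_X'] at hm
  by_cases h : (2 : Fin 3) ∈ m.support
  · rw [if_pos h] at hm
    have h1 := hQ _ (mem_support_iff.2 hm)
    rw [Finsupp.tsub_apply, Finsupp.single_eq_same] at h1
    have h2 : m 2 ≠ 0 := Finsupp.mem_support_iff.1 h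
    obtain ⟨k, hk⟩ := h1
    exact ⟨k, by omega⟩
  · rw [if_neg h] at hm
    exact absurd rfl hm

theorem factor (P : Pl) (hP : OddP P) : ∃ Q : Pl, P = X 2 * Q := by
  refine ⟨∑ m ∈ P.support, monomial (m - Finsupp.single 2 1) (coeff m P), ?_⟩
  rw [Finset.mul_sum]
  conv_lhs => rw [P.as_sum]
  refine Finset.sum_congr rfl fun m hm => ?_
  have h := hP m hm
  have h1 : 1 ≤ m 2 := by
    obtain ⟨k, hk⟩ := h
    omega
  rw [show (X 2 : Pl) = monomial (Finsupp.single 2 1) 1 from rfl, monomial_mul, one_mul,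
    add_tsub_cancel_of_le]
  intro i
  rw [Finsupp.single_apply]
  by_cases hi : 2 = i
  · rw [if_pos hi, ← hi]
    exact h1
  · rw [if_neg hi]
    exact Nat.zero_le _

theorem odp : OdpStmt := by
  refine ⟨fun P Q hP hQ => OddS.add_mem hP hQ, ?_, ?_, ?_, factor, ?_, X2_mul_odd⟩
  · intro c P hP
    rw [C_mul']
    exact OddS.smul_mem c hP
  · intro P hP
    exact odd_map (LinearMap.mulLeft ℝ rho) (fun m c h => rho_mono m c h) hP
  · intro P hP
    exact odd_map lapL (fun m c h => lap_mono m c h) hP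
  · have h := mono_mem (m := Finsupp.single 2 1) 1 (by simp)
    exact h

end Pool.Agent.BEB.H19
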